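import Pool.Agent.Helper96.GJ.Final

/-! The normalised bracket polynomial detects the unknot on average on every knot shadow. -/

namespace Pool.Agent.Helper96.Retired.AverageDetection

open Pool.Agent.GaussJones LaurentPolynomial

theorem result :
    ∃ C : ℝ, ∀ (n : ℕ) (g : Code n), 0 < n → ∃ S : Finset (Fin n),
      (Reduced g → twistRegions g ≤ 5 * S.card) ∧
      (∀ (S' : Finset (Fin n)) (e₀ : Fin n → Bool) (P : ℤ[T;T⁻¹]), S ⊆ S' →
        (Nat.card {e : Fin n → Bool // (∀ i ∉ S', e i = e₀ i) ∧ fPoly g e = P} : ℝ) ≤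
          C * ((1 + Real.log (S.card + 1)) / (S.card + 1)) ^ (1 / 4 : ℝ) * 2 ^ S'.card) ∧
      ∀ s : Fin n → Bool, Planar g s →
        ∃ o₀ : Fin n → Bool, ∀ o : Fin n → Bool, (∀ i ∈ S, o i = o₀ i) → Unknotted g s o := by
  obtain ⟨C, -, hC⟩ := main2
  exact ⟨C, hC⟩

end Pool.Agent.Helper96.Retired.AverageDetection
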